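import Pool.Agent.Run7.h33.AB.SymAll

set_option autoImplicit false

/-!
# Fixed `lam`: groups of automorphisms of symmetric designs are small

Let `lam ≥ 2` be fixed and let `v` be large. An abelian group of automorphisms of a symmetric
`2-(v, k, lam)` design has at most `v` elements; if it has more than `(1 + 2 ^ (-20)) v / lam`
elements, then it has a regular orbit on the points or on the blocks. A `p`-group of automorphisms
has at most `v ^ (log v + 1)` elements, and every group of automorphisms has at most
`v ^ (2 lam log v)` elements (logarithms to the base `2`). Hence only finitely many symmetric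
designs with the given `lam` have a larger group.

Proof. The incidence graph has `2 v` vertices of degree `k`, `2 v ≤ k ^ 2`, and any two of them have
at most `lam` common neighbours. Let `P` be an abelian group of automorphisms of a graph with
`n ≤ B d ^ 2` vertices, all degrees larger than `d + t` and at most `t` common neighbours. All
points of an orbit have the same stabilizer. Let `x` be a moved vertex with the smallest
stabilizer. Every `z` satisfies `|z ^ P_x| ≤ |x ^ P_z|`. Counting (Kővári, Sós and Turán) shows that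
there are many `z` such that the orbit of `z` under `P_x` has bounded length, and then two vertices
`x`, `w` such that the stabilizer of `x` and `w` fixes at least `d ^ 2 / (32 t ^ 3 B ^ 2)` vertices
which are not fixed by `P` (`AB/St1.lean`, `AB/St2.lean`, `AB/Base.lean`). For a design an
automorphism with so many fixed points and blocks is trivial. So `|P| ≤ |x ^ P| |w ^ P|`, and
orbits that are not regular are contained in the set of fixed points of a non-trivial group, which
has at most `k / lam + O(√k)` elements if the group has more than `lam` elements (`N345/Sym`).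

In a `p`-group there is an abelian normal subgroup `M` that is its own centralizer, so the order is at
most `|M| ^ (log |M| + 1)`. In general `O(log log v)` points and blocks generate the design under
the operation of taking common neighbours, so all primes that divide the order of their stabilizer
are at most `lam`.
-/

namespace Pool.Agent.Results.MP_c38931_co.AbelianGroups

/-- The blocks `B i` (`i : Fin v`) form a symmetric `2-(v, k, lam)` design on the points `Fin v`
with `2 ≤ k < v`. -/
structure IsSymmetricDesign (v k lam : ℕ) (B : Fin v → Finset (Fin v)) : Prop where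
  two_le : 2 ≤ k
  lt : k < v
  size : ∀ i, (B i).card = k
  pair : ∀ x y : Fin v, x ≠ y →
    (Finset.univ.filter (fun i => x ∈ B i ∧ y ∈ B i)).card = lam

/-- All permutations in the group `H` map every block to a block. -/
def IsAutomorphismGroup {v : ℕ} (B : Fin v → Finset (Fin v))
    (H : Subgroup (Equiv.Perm (Fin v))) : Prop :=
  ∀ σ ∈ H, ∀ i, ∃ j, (B i).image σ = B j

/-- Any two elements of `H` commute. -/
def IsAbelian {v : ℕ} (H : Subgroup (Equiv.Perm (Fin v))) : Prop :=
  ∀ σ ∈ H, ∀ τ ∈ H, σ * τ = τ * σ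

/-- Let `lam ≥ 2`. (1) If `k ≥ 2 ^ 51 lam ^ 9`, then an abelian group `H` of automorphisms of a
symmetric `2-(v, k, lam)` design has at most `v` elements, and some point or some block has trivial
stabilizer in `H`, or `H` has at most `(1 + 2 ^ (-20)) v / lam` elements. (2) If
`k ≥ 2 ^ 51 lam ^ 9`, then a `p`-group of automorphisms has at most `v ^ (log v + 1)` elements.
(3) If `v ≥ 2 ^ (2 ^ 42 lam)`, then every group of automorphisms has at most `v ^ (2 lam log v)`
elements (`log` is the integer part of the logarithm to the base `2`). (4) Only finitely many pairs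
`(v, k)` are the parameters of a symmetric `2-(v, k, lam)` design with an abelian group of
automorphisms with more than `v` elements or with a group of automorphisms with more than
`v ^ (2 lam log v)` elements. -/
theorem result (lam : ℕ) (hlam : 2 ≤ lam) :
    (∀ (v k : ℕ) (B : Fin v → Finset (Fin v)) (H : Subgroup (Equiv.Perm (Fin v))),
      IsSymmetricDesign v k lam B → IsAutomorphismGroup B H → 2 ^ 51 * lam ^ 9 ≤ k →
      IsAbelian H → Nat.card H ≤ v ∧ ((∃ x, ∀ σ ∈ H, σ x = x → σ = 1) ∨
        (∃ i, ∀ σ ∈ H, (B i).image σ = B i → σ = 1) ∨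
        2 ^ 20 * lam * Nat.card H ≤ (2 ^ 20 + 1) * v)) ∧
    (∀ (v k : ℕ) (B : Fin v → Finset (Fin v)) (H : Subgroup (Equiv.Perm (Fin v))),
      IsSymmetricDesign v k lam B → IsAutomorphismGroup B H → 2 ^ 51 * lam ^ 9 ≤ k →
      ∀ p : ℕ, p.Prime → IsPGroup p H → Nat.card H ≤ v ^ (Nat.log 2 v + 1)) ∧
    (∀ (v k : ℕ) (B : Fin v → Finset (Fin v)) (H : Subgroup (Equiv.Perm (Fin v))),
      IsSymmetricDesign v k lam B → IsAutomorphismGroup B H → 2 ^ (2 ^ 42 * lam) ≤ v →
      Nat.card H ≤ v ^ (2 * lam * Nat.log 2 v)) ∧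
    {q : ℕ × ℕ | ∃ (B : Fin q.1 → Finset (Fin q.1)) (H : Subgroup (Equiv.Perm (Fin q.1))),
      IsSymmetricDesign q.1 q.2 lam B ∧ IsAutomorphismGroup B H ∧
      ((IsAbelian H ∧ q.1 < Nat.card H) ∨
        q.1 ^ (2 * lam * Nat.log 2 q.1) < Nat.card H)}.Finite := by
  have hlam1 : 1 ≤ lam := by omega
  have h1 : ∀ (v k : ℕ) (B : Fin v → Finset (Fin v)) (H : Subgroup (Equiv.Perm (Fin v))),
      IsSymmetricDesign v k lam B → IsAutomorphismGroup B H → 2 ^ 51 * lam ^ 9 ≤ k →
      IsAbelian H → Nat.card H ≤ v ∧ ((∃ x, ∀ σ ∈ H, σ x = x → σ = 1) ∨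
        (∃ i, ∀ σ ∈ H, (B i).image σ = B i → σ = 1) ∨
        2 ^ 20 * lam * Nat.card H ≤ (2 ^ 20 + 1) * v) :=
    fun v k B H hB hH hk hc => Run7.h33.AB.perm_ab ⟨hB.two_le, hB.lt, hB.size, hB.pair⟩ hlam hk
      hH hc
  have hvk : ∀ (v k : ℕ) (B : Fin v → Finset (Fin v)), IsSymmetricDesign v k lam B →
      v ≤ k * k := by
    intro v k B hB
    have hd : Pool.Agent.N345.Sym.Des v k lam B := ⟨hB.two_le, hB.lt, hB.size, hB.pair⟩
    exact (Nat.le_mul_of_pos_left v hlam1).trans (hd.lam_v hlam1)
  have hbig : ∀ (v k : ℕ) (B : Fin v → Finset (Fin v)), IsSymmetricDesign v k lam B →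
      2 ^ (2 ^ 42 * lam) ≤ v → 2 ^ 51 * lam ^ 9 ≤ k := by
    intro v k B hB hv
    by_contra hcon
    push Not at hcon
    have e1 := hvk v k B hB
    have hl : lam < 2 ^ lam := Nat.lt_two_pow_self
    have e2 : k < 2 ^ (51 + 9 * lam) := by
      calc k < 2 ^ 51 * lam ^ 9 := hcon
        _ ≤ 2 ^ 51 * (2 ^ lam) ^ 9 := Nat.mul_le_mul_left _ (Nat.pow_le_pow_left hl.le 9)
        _ = 2 ^ (51 + 9 * lam) := by rw [← pow_mul, ← pow_add, mul_comm lam 9]
    have e3 : v < 2 ^ (2 ^ 42 * lam) := by
      calc v ≤ k * k := e1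
        _ < 2 ^ (51 + 9 * lam) * 2 ^ (51 + 9 * lam) := Nat.mul_lt_mul'' e2 e2
        _ = 2 ^ (102 + 18 * lam) := by
            rw [← pow_add]
            congr 1
            ring
        _ ≤ 2 ^ (2 ^ 42 * lam) := Nat.pow_le_pow_right (by norm_num) (by omega)
    omega
  have h3 : ∀ (v k : ℕ) (B : Fin v → Finset (Fin v)) (H : Subgroup (Equiv.Perm (Fin v))),
      IsSymmetricDesign v k lam B → IsAutomorphismGroup B H → 2 ^ (2 ^ 42 * lam) ≤ v →
      Nat.card H ≤ v ^ (2 * lam * Nat.log 2 v) :=
    fun v k B H hB hH hv => Run7.h33.AB.perm_all ⟨hB.two_le, hB.lt, hB.size, hB.pair⟩ hlam hv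
      (hbig v k B hB hv) hH
  refine ⟨h1, ?_, h3, ?_⟩
  · intro v k B H hB hH hk p hp hP
    exact Run7.h33.AB.perm_p ⟨hB.two_le, hB.lt, hB.size, hB.pair⟩ hlam hk hH hp hP
  · obtain ⟨N, hN⟩ : ∃ N, N = 2 ^ (2 ^ 42 * lam) + (2 ^ 51 * lam ^ 9) * (2 ^ 51 * lam ^ 9) :=
      ⟨_, rfl⟩
    refine Set.Finite.subset ((Set.finite_Iic N).prod (Set.finite_Iic N)) ?_
    rintro ⟨v, k⟩ ⟨B, H, hB, hH, hcase⟩
    simp only at B H hB hH hcase
    have hkv := hB.lt
    have hv : v ≤ N := by
      rw [hN]
      rcases hcase with ⟨hc, hlt⟩ | hlt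
      · have e1 : k < 2 ^ 51 * lam ^ 9 := by
          by_contra hcon
          push Not at hcon
          have := (h1 v k B H hB hH hcon hc).1
          omega
        have e2 : k * k ≤ (2 ^ 51 * lam ^ 9) * (2 ^ 51 * lam ^ 9) := Nat.mul_le_mul e1.le e1.le
        exact ((hvk v k B hB).trans e2).trans (Nat.le_add_left _ _)
      · have e1 : v < 2 ^ (2 ^ 42 * lam) := by
          by_contra hcon
          push Not at hcon
          have := h3 v k B H hB hH hcon
          omega
        exact e1.le.trans (Nat.le_add_right _ _)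
    exact ⟨hv, hkv.le.trans hv⟩

end Pool.Agent.Results.MP_c38931_co.AbelianGroups
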