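import Pool.Agent.Run7.h33.LL.TwoNets

/-!
# Dense graphs without cycles of length four have Weisfeiler-Leman dimension `O(log log n)`

Let `G` be a graph with `n ≤ A δ ^ 2` vertices and minimum degree `δ ≥ 2` in which two vertices have
at most one common neighbour. Then the Weisfeiler-Leman method of dimension
`20000 A (A (log A + 1) + log log n)` identifies `G` among all graphs, where the logarithms are to
base 2. Nothing else is assumed: the graph need not be regular or connected and it may have
triangles. In particular the graphs without 4-cycles with minimum degree at least `c √n` can be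
tested for isomorphism in time `n ^ O(log log n)`. Examples are the incidence graphs of all partial
linear spaces with at most `n` points and lines, at least `c √n` lines through every point and at
least `c √n` points on every line: projective and affine planes (for the planes this is an
observation of Miller from 1978), semiplanes, partial geometries, and also the polarity graphs.
The second part is about the nets of order `s` whose degree is at least `s / B + 1`, i.e. about
systems of at least `c s` mutually orthogonal Latin squares.

Proof. The vertices that are recognized after the individualization of some vertices form a set `K`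
that is closed under common neighbours. So a vertex outside has at most one neighbour inside. Let
`K₀ ⊆ K` be closed sets and `s = |K \ K₀|`. If `s < (δ / 4) ^ 2` then the inner edges of `K \ K₀` are
few, and the boundary `D` (the vertices outside of `K` with a neighbour in `K \ K₀`) has about `s δ`
elements. By the inequality of Cauchy and Schwarz there are at least `c s ^ 2 δ ^ 2 / A` paths
`z₁ a z₂` with `z₁, z₂` in `D` and `a` outside. There are at least `(δ - 2) ^ 2` pairs `(v₁, v₂)` of
vertices outside with `v₁` adjacent to `z₁`, `v₂` adjacent to `z₂` and `a` different from both. So some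
pair `(v₁, v₂)` serves at least `c s ^ 2 / A ^ 3` of the paths. A closed set that contains `K` and the
pair contains `z₁` (a common neighbour of `v₁` and of an element of `K`), `z₂` and `a`; and `a`
determines `z₁` and `z₂`. So the individualization of the pair squares `s` up to a constant factor:
after the individualization of `O(A log A)` vertices (growth by the factor `1 + 1 / (8 A)`) and of
`O(log log n)` pairs one has `s ≥ (δ / 4) ^ 2`, and then one starts again with `K` in the place of
`K₀`. This happens at most `64 A + 1` times.
-/

set_option autoImplicit false

namespace Pool.Agent.Results.MP_f1a348_lc.DenseC4Free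

open Pool.Agent.W185.SRG Pool.Agent.N624.NT

/-- 1. Graphs with `n ≤ A δ ^ 2` vertices and minimum degree `δ` in which two vertices have at most
one common neighbour. 2. The incidence graphs of nets of degree `k` and order at most `B (k - 1)`. -/
theorem result :
    (∀ (A δ N : ℕ) (V W : Type) [Fintype V] [Fintype W] (G : SimpleGraph V) (H : SimpleGraph W),
      1 ≤ A → 2 ≤ δ → (∀ u v, u ≠ v → (G.commonNeighbors u v).Subsingleton) →
      (∀ v, δ ≤ (G.neighborSet v).ncard) → Fintype.card V ≤ A * δ ^ 2 →
      20000 * A * (A * (Nat.log 2 A + 1) + Nat.log 2 (Nat.log 2 (Fintype.card V))) ≤ N →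
      WLEquivalent N G H → Nonempty (G ≃g H)) ∧
    (∀ (B k N : ℕ) (P Q W : Type) [Fintype P] [Fintype Q] [Fintype W] (f : Fin k → P → Q)
      (H : SimpleGraph W),
      2 ≤ k → IsNet f → 2 ≤ Fintype.card Q → Fintype.card Q ≤ B * (k - 1) →
      10 ^ 6 * B ^ 2 * (B ^ 2 * (Nat.log 2 B + 1) + Nat.log 2 (Nat.log 2 (Fintype.card Q))) ≤ N →
      WLEquivalent N (Run7.h33.AF.incGraph f) H → Nonempty (Run7.h33.AF.incGraph f ≃g H)) := by
  refine ⟨?_, ?_⟩
  · intro A δ N V W _ _ G H hA hδ hG hd hn hN h
    exact Run7.h33.LL.main_two hδ hA (Run7.h33.AF.noC4_of hG) hd hn hN h
  · intro B k N P Q W _ _ _ f H hk hf hQ hB hN h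
    exact Run7.h33.LL.main_net' hf hk hQ hB hN h

end Pool.Agent.Results.MP_f1a348_lc.DenseC4Free
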