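import Pool.Agent.Run7.h33.AF.Nets

/-!
# Dense geometries have Weisfeiler-Leman dimension `O(log log n)`

Let `G` be a graph with `n` vertices in which two vertices have at most one common neighbour, all
degrees are at least `q`, any two different non-adjacent vertices are joined by at least `q` paths of
length three, and `n ≤ A q ^ 2`. Then the Weisfeiler-Leman method of dimension
`10 ^ 8 A ^ 7 (log log n + 1)` identifies `G` among all graphs. The same holds for bipartite graphs,
where only vertices of different sides have to be joined by `q` paths of length three: these are
the incidence graphs of partial linear spaces such that for every point `p` and every line `l` not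
through `p` at least `q` lines through `p` meet `l`.

Examples: projective and affine planes and polarity graphs (for the planes an observation of Miller
from 1978: subplanes grow quadratically), partial geometries `pg(s, t, α)` and semiplanes with `α`
proportional to `s` and `t`, and the nets of order `s` whose degree `k` is at least proportional to
`s`, i.e. the sets of at least `c s` mutually orthogonal Latin squares of order `s` (third part).
None of them needs to be extendable to a plane, and nothing like the theorems of Bruck on
subplanes and completions is available.

Proof. The vertices that are recognized after the individualization of some vertices form a set `K`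
that is closed under common neighbours; so a vertex outside has at most one neighbour inside. If
`K` is not everything then counting paths of length three from a vertex outside shows that `K` has
at most `O(q)` elements (of one sort), so all but a bounded number of its elements (of one sort) have
at most `q / 2` neighbours inside. Hence there are `q |K| ^ 2 / 8` paths `w z a l` of length three
with ends in `K` and inner vertices outside. The vertex `z` has `q - 2` further neighbours `v`, and so
some `v` is adjacent to the vertices `z` of `|K| ^ 2 / (16 A)` such paths. Then `v` and `K` generate the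
vertices `z` (neighbours of `v` and `w`) and `a` (neighbours of `z` and `l`), and the vertices `a` are
distinct. So `K` grows quadratically.
-/

set_option autoImplicit false

namespace Pool.Agent.Results.MP_f1a348_lc.DenseGeometries

open Pool.Agent.W185.SRG Pool.Agent.N624.NT

/-- 1. Graphs in which two vertices have at most one common neighbour and different non-adjacent
vertices are joined by at least `q` walks of length three. 2. Bipartite graphs, where this is
required for the vertices of different sides. 3. The incidence graphs of nets of degree `k` and
order at most `B (k - 1)`. -/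
theorem result :
    (∀ (A q N : ℕ) (V W : Type) [Fintype V] [Fintype W] (G : SimpleGraph V) (H : SimpleGraph W),
      1 ≤ A → (∀ u v, u ≠ v → (G.commonNeighbors u v).Subsingleton) →
      (∀ v, q ≤ (G.neighborSet v).ncard) →
      (∀ u v, u ≠ v → ¬ G.Adj u v →
        q ≤ {x : V × V | G.Adj u x.1 ∧ G.Adj x.1 x.2 ∧ G.Adj x.2 v}.ncard) →
      Fintype.card V ≤ A * q ^ 2 →
      10 ^ 8 * A ^ 7 * (Nat.log 2 (Nat.log 2 (Fintype.card V)) + 1) ≤ N →
      WLEquivalent N G H → Nonempty (G ≃g H)) ∧
    (∀ (A q N : ℕ) (V W : Type) [Fintype V] [Fintype W] (G : SimpleGraph V) (H : SimpleGraph W)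
      (c : V → Bool),
      1 ≤ A → (∀ u v, G.Adj u v → c u ≠ c v) →
      (∀ u v, u ≠ v → (G.commonNeighbors u v).Subsingleton) →
      (∀ v, q ≤ (G.neighborSet v).ncard) →
      (∀ u v, c u ≠ c v → ¬ G.Adj u v →
        q ≤ {x : V × V | G.Adj u x.1 ∧ G.Adj x.1 x.2 ∧ G.Adj x.2 v}.ncard) →
      Fintype.card V ≤ A * q ^ 2 →
      10 ^ 8 * A ^ 7 * (Nat.log 2 (Nat.log 2 (Fintype.card V)) + 1) ≤ N →
      WLEquivalent N G H → Nonempty (G ≃g H)) ∧
    (∀ (B k N : ℕ) (P Q W : Type) [Fintype P] [Fintype Q] [Fintype W] (f : Fin k → P → Q)
      (H : SimpleGraph W),
      2 ≤ k → IsNet f → 2 ≤ Fintype.card Q → Fintype.card Q ≤ B * (k - 1) →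
      10 ^ 12 * B ^ 14 * (Nat.log 2 (Nat.log 2 (Fintype.card Q)) + 1) ≤ N →
      WLEquivalent N (Run7.h33.AF.incGraph f) H → Nonempty (Run7.h33.AF.incGraph f ≃g H)) := by
  refine ⟨?_, ?_, ?_⟩
  · intro A q N V W _ _ G H hA hG hd h3 hn hN h
    exact Run7.h33.AF.main_plain hA hG hd h3 hn hN h
  · intro A q N V W _ _ G H c hA hc hG hd h3 hn hN h
    exact Run7.h33.AF.main_bip hA hG c hc hd h3 hn hN h
  · intro B k N P Q W _ _ _ f H hk hf hQ hB hN h
    exact Run7.h33.AF.main_net hf hk hQ hB hN h

end Pool.Agent.Results.MP_f1a348_lc.DenseGeometries
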