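import Pool.Agent.Run7.h33.LL.TwoMain
import Pool.Agent.Run7.h33.LL.AutFix

/-!
# Dense graphs in which two vertices have few common neighbours

Let `G` be a graph with `n ≤ A δ ^ 2` vertices and minimum degree `δ ≥ 2` in which two vertices have
at most `t` common neighbours, i.e. a graph without `K_{2,t+1}` with at least `c √n` edges at every
vertex. Nothing else is assumed: the graph need not be regular or connected and it may have
triangles.

1. After the individualization of `40000 t A (A (log (t A) + 1) + log log n)` suitable vertices the
graph is `t`-CR-bounded: the repetition of colour refinement and of the individualization of the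
vertices in classes with at most `t` elements leads to the discrete partition. Isomorphism of
`t`-CR-bounded graphs can be decided in time `n ^ polylog t` (Neuen; Grohe, Neuen, Schweitzer), so for
fixed `t` and `A` the isomorphism of these graphs can be decided in time `n ^ O(log log n)`. Moreover
the automorphisms that fix the individualized vertices form a group whose order has only prime
divisors `≤ t`. For symmetric designs whose blocks meet in `t` points (`t`-planes) this bound was
proved by Babai and Luks in 1983, for projective planes by Miller in 1978.

2. For `t = 1`, i.e. for graphs without 4-cycles, no splitting is needed, and the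
Weisfeiler-Leman method of dimension `20000 A (A (log A + 1) + log log n)` identifies `G` among all
graphs. Examples are the incidence graphs of all partial linear spaces with at most `n` points and
lines, at least `c √n` lines through every point and at least `c √n` points on every line, and the
polarity graphs.

Proof. Let `K` be a set of vertices that is closed under common neighbours of two of its elements.
So a vertex outside has at most one neighbour inside. Let `K₀ ⊆ K` be closed sets and
`s = |K \ K₀|`. If `s < (δ / 4) ^ 2 / t` then the inner edges of `K \ K₀` are few, and the boundary `D`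
(the vertices outside of `K` with a neighbour in `K \ K₀`) has about `s δ` elements. By the inequality
of Cauchy and Schwarz there are at least `c s ^ 2 δ ^ 2 / A` paths `z₁ a z₂` with `z₁, z₂` in `D` and
`a` outside. There are at least `(δ - 2) ^ 2` pairs `(v₁, v₂)` of vertices outside with `v₁` adjacent
to `z₁`, `v₂` adjacent to `z₂` and `a` different from both. So some pair `(v₁, v₂)` serves at least
`c s ^ 2 / A ^ 3` of the paths. A closed set that contains `K` and the pair contains `z₁` (a common
neighbour of `v₁` and of an element of `K`), `z₂` and `a`; and `a` and the pair determine `z₁` and `z₂`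
up to `t ^ 2` possibilities. So the individualization of the pair squares `s` up to a constant factor:
after the individualization of `O(A log (t A))` vertices (growth by the factor `1 + 1 / (8 A)`) and of
`O(log log n)` pairs one has `s ≥ (δ / 4) ^ 2 / t`, and then one starts again with `K` in the place of
`K₀`. This happens at most `128 t A + 1` times.
-/

set_option autoImplicit false

namespace Pool.Agent.Results.MP_f1a348_lc.DenseK2tFree

open Pool.Agent.W185.SRG

/-- 1. Graphs with `n ≤ A δ ^ 2` vertices and minimum degree `δ` in which two vertices have at most
`t` common neighbours. 2. The Weisfeiler-Leman dimension for `t = 1`. -/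
theorem result :
    (∀ (A δ t : ℕ) (V : Type) [Fintype V] (G : SimpleGraph V),
      1 ≤ A → 2 ≤ δ → 1 ≤ t → (∀ u v, u ≠ v → (G.commonNeighbors u v).ncard ≤ t) →
      (∀ v, δ ≤ (G.neighborSet v).ncard) → Fintype.card V ≤ A * δ ^ 2 →
      ∃ S : Finset V, S.card ≤ 40000 * t * A * (A * (Nat.log 2 (t * A) + 1) +
          Nat.log 2 (Nat.log 2 (Fintype.card V))) ∧
        Run7.h33.LL.CRBounded G t S ∧
        ∀ p, p.Prime → t < p → ∀ φ : G ≃g G, (⇑φ)^[p] = id → (∀ v ∈ S, φ v = v) →
          ∀ v, φ v = v) ∧
    (∀ (A δ N : ℕ) (V W : Type) [Fintype V] [Fintype W] (G : SimpleGraph V) (H : SimpleGraph W),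
      1 ≤ A → 2 ≤ δ → (∀ u v, u ≠ v → (G.commonNeighbors u v).Subsingleton) →
      (∀ v, δ ≤ (G.neighborSet v).ncard) → Fintype.card V ≤ A * δ ^ 2 →
      20000 * A * (A * (Nat.log 2 A + 1) + Nat.log 2 (Nat.log 2 (Fintype.card V))) ≤ N →
      WLEquivalent N G H → Nonempty (G ≃g H)) := by
  refine ⟨?_, ?_⟩
  · intro A δ t V _ G hA hδ ht hG hd hn
    exact Run7.h33.LL.main_cr hδ hA ht hG hd hn
  · intro A δ N V W _ _ G H hA hδ hG hd hn hN h
    exact Run7.h33.LL.main_two hδ hA (Run7.h33.AF.noC4_of hG) hd hn hN h

end Pool.Agent.Results.MP_f1a348_lc.DenseK2tFree
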