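import Pool.Agent.Run7.h33.NM.Main

/-!
# The Weisfeiler-Leman dimension of graphs of given girth and minimum degree

Let `G` be a graph with `n` vertices, minimum degree at least `δ` and without cycles of length at
most `2 k`. Then `n` is at least about `δ ^ k` (Moore bound). We show that the Weisfeiler-Leman
method of dimension `100 ^ k * (n / δ ^ k + 1) ^ 2 * (log n + 1)` identifies `G` among all graphs.
So the graphs whose number of vertices is at most a constant times the Moore bound (Moore graphs,
cages of this size, incidence graphs of projective planes, polarity graphs, all graphs near the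
extremal number for their girth with a proportional minimum degree, ...) are identified in
dimension `O(log n)`, and isomorphism with them is decided in time `n ^ O(log n)` by individualizing
`O(log n)` vertices and refining. For `k = 2` it is sufficient that there are no cycles of
length `4` (triangles are allowed, as in polarity graphs).

Proof. Call a set `K` of vertices closed if it contains the vertices of all paths of length at most
`k` between its elements. As such paths are unique, the vertices that are recognized after the
individualization of some vertices form a closed set. A vertex outside of a closed set has at most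
one neighbour inside. Let `K₀ ⊂ K` be closed and `M = K - K₀`. If the average degree inside of `M`
is at most `(δ - 1) / 2`, then at least `|M| (δ - 1) / 2` vertices `z` outside of `K` have a
neighbour in `M`, and for each of them there are `(δ - 1) ^ (k - 1)` vertices `v` outside of `K`
such that `z` is on the path of length `k` from `K` to `v`. So some `v` generates together with `K`
at least `|M| (δ - 1) ^ k / (2 n)` new vertices: `M` grows exponentially. Otherwise `M` has a subset
with minimum degree at least `(δ - 1) / 4`, and by the Moore bound `M` has at least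
`((δ - 1) / 4) ^ k` vertices; then we start again with `K` instead of `K₀`.
-/

set_option autoImplicit false

namespace Pool.Agent.Results.MP_128e7d_lc.GirthAndMinimumDegree

open Pool.Agent.W185.SRG

/-- 1. Graphs with minimum degree at least `δ` and without cycles of length at most `2 k`.
2. Graphs with minimum degree at least `δ` in which no two vertices have two common neighbours.
3. In particular, for fixed `k` and `A`, dimension `C (log n + 1)` is enough if `n ≤ A δ ^ k`. -/
theorem result :
    (∀ (k δ N : ℕ) (V W : Type) [Fintype V] [Fintype W] (G : SimpleGraph V) (H : SimpleGraph W),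
      2 ≤ k → 2 ≤ δ → ((2 * k + 1 : ℕ) : ℕ∞) ≤ G.egirth →
      (∀ v, δ ≤ (G.neighborSet v).ncard) →
      100 ^ k * (Fintype.card V / δ ^ k + 1) ^ 2 * (Nat.log 2 (Fintype.card V) + 1) ≤ N →
      WLEquivalent N G H → Nonempty (G ≃g H)) ∧
    (∀ (δ N : ℕ) (V W : Type) [Fintype V] [Fintype W] (G : SimpleGraph V) (H : SimpleGraph W),
      2 ≤ δ → (∀ u v, u ≠ v → (G.commonNeighbors u v).Subsingleton) →
      (∀ v, δ ≤ (G.neighborSet v).ncard) →
      10000 * (Fintype.card V / δ ^ 2 + 1) ^ 2 * (Nat.log 2 (Fintype.card V) + 1) ≤ N →
      WLEquivalent N G H → Nonempty (G ≃g H)) ∧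
    (∀ k A : ℕ, 2 ≤ k → ∃ C : ℕ, ∀ (δ N : ℕ) (V W : Type) [Fintype V] [Fintype W]
      (G : SimpleGraph V) (H : SimpleGraph W),
      2 ≤ δ → ((2 * k + 1 : ℕ) : ℕ∞) ≤ G.egirth → (∀ v, δ ≤ (G.neighborSet v).ncard) →
      Fintype.card V ≤ A * δ ^ k → C * (Nat.log 2 (Fintype.card V) + 1) ≤ N →
      WLEquivalent N G H → Nonempty (G ≃g H)) := by
  have h1 : ∀ (k δ N : ℕ) (V W : Type) [Fintype V] [Fintype W] (G : SimpleGraph V)
      (H : SimpleGraph W), 2 ≤ k → 2 ≤ δ → ((2 * k + 1 : ℕ) : ℕ∞) ≤ G.egirth →
      (∀ v, δ ≤ (G.neighborSet v).ncard) →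
      100 ^ k * (Fintype.card V / δ ^ k + 1) ^ 2 * (Nat.log 2 (Fintype.card V) + 1) ≤ N →
      WLEquivalent N G H → Nonempty (G ≃g H) := by
    intro k δ N V W _ _ G H hk hδ hg hd hN h
    rcases isEmpty_or_nonempty V with hV | hV
    · exact Run7.h33.NM.iso_of_empty (Run7.h33.NM.one_le_of hN) h
    · refine Run7.h33.NM.main_girth hk hδ ?_ hd hN h
      intro v c hc
      have h2 := SimpleGraph.le_egirth.1 hg v c hc
      have h3 : 2 * k + 1 ≤ c.length := by exact_mod_cast h2
      omega
  refine ⟨h1, ?_, ?_⟩
  · intro δ N V W _ _ G H hδ hc hd hN h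
    rcases isEmpty_or_nonempty V with hV | hV
    · exact Run7.h33.NM.iso_of_empty (Run7.h33.NM.one_le_of (k := 2) (by norm_num; exact hN)) h
    · refine Run7.h33.NM.main_c4 hδ ?_ hd hN h
      intro u v z z' huv h2 h3 h4 h5
      exact hc u v huv ⟨h2.symm, h3.symm⟩ ⟨h4.symm, h5.symm⟩
  · intro k A hk
    refine ⟨100 ^ k * (A + 1) ^ 2, ?_⟩
    intro δ N V W _ _ G H hδ hg hd hA hN h
    refine h1 k δ N V W G H hk hδ hg hd (le_trans ?_ hN) h
    have h2 : Fintype.card V / δ ^ k ≤ A := Nat.div_le_of_le_mul (by rwa [mul_comm] at hA)
    exact Nat.mul_le_mul_right _ (Nat.mul_le_mul_left _ (Nat.pow_le_pow_left (by omega) 2))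

end Pool.Agent.Results.MP_128e7d_lc.GirthAndMinimumDegree
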